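import Pool.Agent.Lib.MP_084b88_gt.SK.I22.D

/-! # MP_084b88_gt: certificate I22, small checks -/

set_option autoImplicit false

namespace Pool.Agent.Lib.MP_084b88_gt.SK.I22

open Pool.Agent.Lib.MP_084b88_gt.SK

theorem hok : P.OK := ⟨by decide +kernel, by decide +kernel, by decide +kernel, by decide +kernel, by decide +kernel⟩

theorem hrd : RdOK P 13 11 11 := ⟨by decide +kernel, by decide +kernel, by decide +kernel, by decide +kernel⟩

theorem hP : PN P 10 13 11 11 := ⟨hok, hrd, by decide +kernel⟩

theorem hq : QOK P q [11, 11, 11, 11, 11, 11, 11, 11] where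
  ok := hok
  ho := by decide +kernel
  two := ⟨by decide +kernel, by decide +kernel, by decide +kernel, by decide +kernel⟩
  rd := hrd
  sw := ⟨by decide +kernel, by decide +kernel, by decide +kernel, by decide +kernel, by decide +kernel⟩
  hdl := by decide +kernel
  zi1 := by decide +kernel
  zi2 := by decide +kernel
  zo := by decide +kernel
  hB := by decide +kernel

theorem he : EvOK P ev0 := ⟨by decide +kernel, by decide +kernel, by decide +kernel, by decide +kernel, by decide +kernel⟩

theorem hns : ∀ x ∈ ns, nwC x := by decide +kernel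

theorem hln : lnE (gV kw ns 12096) = 2 := by decide +kernel

theorem hpy : pyE sgM (gV kw ns 12096) = 1 := by decide +kernel

theorem hmt : mckL P q ev0 (tl.map fun y => (y.mb.m, Ex.mul (vI y.vt) (muI y.ids))) = true := by decide +kernel

theorem hmu : mckL P q ev0 (ul.flatMap fun y => [(y.m2, m2E y.kd (muI y.ids)), (y.mn, smE (-1) (muI y.ids))]) = true := by
  decide +kernel

theorem hib : ibs P tl ul = true := by decide +kernel

end Pool.Agent.Lib.MP_084b88_gt.SK.I22
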