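import Pool.Agent.Lib.MP_084b88_gt.SK.I22.P0
import Pool.Agent.Lib.MP_084b88_gt.SK.I22.P1
import Pool.Agent.Lib.MP_084b88_gt.SK.I22.P2
import Pool.Agent.Lib.MP_084b88_gt.SK.I22.P3
import Pool.Agent.Lib.MP_084b88_gt.SK.I22.P4
import Pool.Agent.Lib.MP_084b88_gt.SK.I22.C
import Pool.Agent.Lib.MP_084b88_gt.SK.I22.K

/-! # MP_084b88_gt: certificate I22, the generator -/


set_option autoImplicit false

open MeasureTheory Set Real Filter Topology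

namespace Pool.Agent.Lib.MP_084b88_gt.SK.I22

open Pool.Agent.Lib.MP_084b88_gt.SK Pool.Agent.Lib.MP_084b88_gt.CW Pool.Agent.Lib.MP_084b88_gt.SY Pool.Agent.Lib.MP_084b88_gt.AY

theorem hpt : ∀ x ∈ tl, ∀ y ∈ x.mb.bl, PsdOK P.b P.o y.rows :=
  List.forall_mem_cons.2 ⟨List.forall_mem_cons.2 ⟨p0, List.forall_mem_cons.2 ⟨p1, List.forall_mem_cons.2 ⟨p2, List.forall_mem_cons.2 ⟨p3, List.forall_mem_cons.2 ⟨p4, List.forall_mem_nil _⟩⟩⟩⟩⟩, List.forall_mem_cons.2 ⟨List.forall_mem_cons.2 ⟨p10, List.forall_mem_cons.2 ⟨p11, List.forall_mem_cons.2 ⟨p12, List.forall_mem_cons.2 ⟨p13, List.forall_mem_nil _⟩⟩⟩⟩, List.forall_mem_cons.2 ⟨List.forall_mem_cons.2 ⟨p14, List.forall_mem_cons.2 ⟨p15, List.forall_mem_cons.2 ⟨p16, List.forall_mem_cons.2 ⟨p17, List.forall_mem_nil _⟩⟩⟩⟩, List.forall_mem_cons.2 ⟨List.forall_mem_cons.2 ⟨p18, List.forall_mem_cons.2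 ⟨p19, List.forall_mem_cons.2 ⟨p20, List.forall_mem_cons.2 ⟨p21, List.forall_mem_nil _⟩⟩⟩⟩, List.forall_mem_cons.2 ⟨List.forall_mem_cons.2 ⟨p26, List.forall_mem_cons.2 ⟨p27, List.forall_mem_cons.2 ⟨p28, List.forall_mem_cons.2 ⟨p29, List.forall_mem_nil _⟩⟩⟩⟩, List.forall_mem_cons.2 ⟨List.forall_mem_cons.2 ⟨p30, List.forall_mem_cons.2 ⟨p31, List.forall_mem_cons.2 ⟨p32, List.forall_mem_cons.2 ⟨p33, List.forall_mem_nil _⟩⟩⟩⟩, List.forall_mem_cons.2 ⟨List.forall_mem_cons.2 ⟨p34, List.forall_mem_cons.2 ⟨p35, List.forall_mem_cons.2 ⟨p36, List.forall_mem_cons.2 ⟨p37, List.forall_mem_nil _⟩⟩⟩⟩, List.forall_mem_cons.2 ⟨List.forall_mem_cons.2 ⟨p38, List.forall_mem_cons.2 ⟨p39, List.forall_mem_cons.2 ⟨p40, List.forall_mem_cons.2 ⟨p41, List.forall_mem_nil _⟩⟩⟩⟩, List.forall_mem_cons.2 ⟨List.forall_mem_cons.2 ⟨p42, List.forall_mem_cons.2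 ⟨p43, List.forall_mem_cons.2 ⟨p44, List.forall_mem_cons.2 ⟨p45, List.forall_mem_nil _⟩⟩⟩⟩, List.forall_mem_cons.2 ⟨List.forall_mem_cons.2 ⟨p50, List.forall_mem_cons.2 ⟨p51, List.forall_mem_cons.2 ⟨p52, List.forall_mem_cons.2 ⟨p53, List.forall_mem_nil _⟩⟩⟩⟩, List.forall_mem_cons.2 ⟨List.forall_mem_cons.2 ⟨p54, List.forall_mem_cons.2 ⟨p55, List.forall_mem_cons.2 ⟨p56, List.forall_mem_cons.2 ⟨p57, List.forall_mem_nil _⟩⟩⟩⟩, List.forall_mem_cons.2 ⟨List.forall_mem_cons.2 ⟨p58, List.forall_mem_cons.2 ⟨p59, List.forall_mem_cons.2 ⟨p60, List.forall_mem_cons.2 ⟨p61, List.forall_mem_nil _⟩⟩⟩⟩, List.forall_mem_cons.2 ⟨List.forall_mem_cons.2 ⟨p62, List.forall_mem_cons.2 ⟨p63, List.forall_mem_cons.2 ⟨p64, List.forall_mem_cons.2 ⟨p65, List.forall_mem_nil _⟩⟩⟩⟩, List.forall_mem_cons.2 ⟨List.forall_mem_cons.2 ⟨p66, List.forall_mem_cons.2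 ⟨p67, List.forall_mem_cons.2 ⟨p68, List.forall_mem_cons.2 ⟨p69, List.forall_mem_cons.2 ⟨p70, List.forall_mem_nil _⟩⟩⟩⟩⟩, List.forall_mem_cons.2 ⟨List.forall_mem_cons.2 ⟨p76, List.forall_mem_cons.2 ⟨p77, List.forall_mem_cons.2 ⟨p78, List.forall_mem_cons.2 ⟨p79, List.forall_mem_nil _⟩⟩⟩⟩, List.forall_mem_cons.2 ⟨List.forall_mem_cons.2 ⟨p80, List.forall_mem_cons.2 ⟨p81, List.forall_mem_cons.2 ⟨p82, List.forall_mem_cons.2 ⟨p83, List.forall_mem_nil _⟩⟩⟩⟩, List.forall_mem_cons.2 ⟨List.forall_mem_cons.2 ⟨p84, List.forall_mem_cons.2 ⟨p85, List.forall_mem_cons.2 ⟨p86, List.forall_mem_cons.2 ⟨p87, List.forall_mem_nil _⟩⟩⟩⟩, List.forall_mem_cons.2 ⟨List.forall_mem_cons.2 ⟨p92, List.forall_mem_cons.2 ⟨p93, List.forall_mem_cons.2 ⟨p94, List.forall_mem_cons.2 ⟨p95, List.forall_mem_nil _⟩⟩⟩⟩, List.forall_mem_cons.2 ⟨List.forall_mem_cons.2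 ⟨p96, List.forall_mem_cons.2 ⟨p97, List.forall_mem_cons.2 ⟨p98, List.forall_mem_cons.2 ⟨p99, List.forall_mem_nil _⟩⟩⟩⟩, List.forall_mem_cons.2 ⟨List.forall_mem_cons.2 ⟨p100, List.forall_mem_cons.2 ⟨p101, List.forall_mem_cons.2 ⟨p102, List.forall_mem_cons.2 ⟨p103, List.forall_mem_nil _⟩⟩⟩⟩, List.forall_mem_cons.2 ⟨List.forall_mem_cons.2 ⟨p104, List.forall_mem_cons.2 ⟨p105, List.forall_mem_cons.2 ⟨p106, List.forall_mem_cons.2 ⟨p107, List.forall_mem_nil _⟩⟩⟩⟩, List.forall_mem_nil _⟩⟩⟩⟩⟩⟩⟩⟩⟩⟩⟩⟩⟩⟩⟩⟩⟩⟩⟩⟩⟩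

theorem hpu : ∀ x ∈ ul, ∀ y ∈ x.bl, PsdOK P.b P.o y.rows :=
  List.forall_mem_cons.2 ⟨List.forall_mem_cons.2 ⟨p5, List.forall_mem_cons.2 ⟨p6, List.forall_mem_cons.2 ⟨p7, List.forall_mem_cons.2 ⟨p8, List.forall_mem_cons.2 ⟨p9, List.forall_mem_nil _⟩⟩⟩⟩⟩, List.forall_mem_cons.2 ⟨List.forall_mem_cons.2 ⟨p22, List.forall_mem_cons.2 ⟨p23, List.forall_mem_cons.2 ⟨p24, List.forall_mem_cons.2 ⟨p25, List.forall_mem_nil _⟩⟩⟩⟩, List.forall_mem_cons.2 ⟨List.forall_mem_cons.2 ⟨p46, List.forall_mem_cons.2 ⟨p47, List.forall_mem_cons.2 ⟨p48, List.forall_mem_cons.2 ⟨p49, List.forall_mem_nil _⟩⟩⟩⟩, List.forall_mem_cons.2 ⟨List.forall_mem_cons.2 ⟨p71, List.forall_mem_cons.2 ⟨p72, List.forall_mem_cons.2 ⟨p73, List.forall_mem_cons.2 ⟨p74, List.forall_mem_cons.2 ⟨p75, List.forall_mem_nil _⟩⟩⟩⟩⟩, List.forall_mem_cons.2 ⟨List.forall_mem_cons.2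 ⟨p88, List.forall_mem_cons.2 ⟨p89, List.forall_mem_cons.2 ⟨p90, List.forall_mem_cons.2 ⟨p91, List.forall_mem_nil _⟩⟩⟩⟩, List.forall_mem_nil _⟩⟩⟩⟩⟩

/-- **Positivity.** -/
theorem pos (D1 D2 : ℝ) (d : Dt) (hd : Dom (1 / 3) (1 / 2) 1 d) :
    0 ≤ (gV kw ns 12096).val (rhoW true D1 D2 d) + (gV kw ns 12096).val (rhoW true D1 D2 d.sw) := by
  have h := hid_of hq [ev0] (fun x hx => by rw [List.mem_singleton.1 hx]; exact he) (sbE (gV kw ns 12096)) Z []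
    (tl.map IT.mb ++ ul.flatMap IM.mbs) [] (VFM.part_nil (p := P)) hck
  rw [List.append_nil] at h
  exact hfi h (fun ρ hρ => sni hP tl ul (tlOK_of hq ev0 he rfl tl hmt) (ulOK_of hq ev0 he rfl ul hmu) hib hpt hpu ρ hρ)
    hln hpy D1 D2 d hd

/-- **The generator is valid.** -/
theorem gv8 (hKRJ : SpecKRJ) (hGVK : SpecGVK) (hNQA : SpecNQA)
    (hTLM : ∀ rc rs : ℝ, -1 ≤ rc → rc ≤ 4 / 5 → -1 ≤ rs → rs ≤ 4 / 5 → ∃ N1 : ℕ, ∀ n : ℕ, N1 ≤ n → ∀ d : Dt,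
      Dom (1 / 3) (1 / 2) 1 d → TLM.TLd rc rs d ≤ ∑ k ∈ Finset.Ico 3 n, tcf k * (SY.mu (k + 1) * TTd (k + 1) rc rs d)) :
    GV8 ⟨1 / 4, 1 / 4, 1, 1, 13 / 250, 3 / 40, 3 / 1000, 0, 0⟩ := by
  refine specXGV hKRJ hGVK hNQA hTLM true kw 12096 ns pos hns (by decide) (by decide) ⟨1 / 4, 1 / 4, 1, 1, 13 / 250, 3 / 40, 3 / 1000, 0, 0⟩ 4 3628800000000
    (fun _ => ⟨rfl, rfl⟩) ?_ (by norm_num) (by norm_num) (by norm_num) (by norm_num) (by norm_num) (by norm_num) (by norm_num) ?_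
  · constructor <;> norm_num [kw, kp]
  · intro X x1 x2 γ h1 h2 hγ
    have e1 : mtV kw.kp.Ph X x1 x2 γ / 3628800000000 = (1507449 / 32000000) * γ ^ 2 + (3 / 40) * (γ * X) + (3 / 1000) * X ^ 2 := by
      simp only [kw, kp, mtV, List.map_cons, List.map_nil, List.sum_cons, List.sum_nil]
      push_cast
      ring
    rw [e1]
    have hC : (1507449 / 32000000 : ℝ) * γ ^ 2 ≤ 13 / 250 * γ ^ 2 := mul_le_mul_of_nonneg_right (by norm_num) (sq_nonneg γ)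
    simp only
    linarith

end Pool.Agent.Lib.MP_084b88_gt.SK.I22
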